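import Mathlib

/-!
# MP_8766ea_co : pointwise distance distributions of planar clouds are not complete

Two non-isometric 10-point clouds in the plane with the same pointwise distance distribution.

Write `(r, k)` for the point at distance `r` from the origin in direction `30k` degrees. Then

* `A = {(2,k) : k = 0,1,6,7} ∪ {(4,k) : k = 0,1,4,5,8,9}`
* `B = {(2,k) : k = 1,2,7,8} ∪ {(4,k) : k = 0,1,4,5,8,9}`.

All coordinates lie in `ℤ[√3]`, so both the equality of the distributions and the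
non-existence of an isometry reduce to finite computations with pairs of integers.
-/

namespace Pool.Agent.Results.MP_8766ea_co.PlanarPDD

open Real

/-- The Euclidean plane. -/
abbrev Plane := EuclideanSpace ℝ (Fin 2)

/-- The row of a point `p` of the cloud `C`: the distances from `p` to the other points
of `C`, listed in non-decreasing order. -/
noncomputable def row (C : Finset Plane) (p : Plane) : List ℝ :=
  ((C.erase p).val.map (fun q => dist p q)).sort (· ≤ ·)

/-- The pointwise distance distribution of the cloud `C`: the collection (multiset) of the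
rows of the points of `C`. -/
noncomputable def PDD (C : Finset Plane) : Multiset (List ℝ) := C.val.map (row C)

/-- `(a, b, c, d)` stands for the point `(a + b√3, c + d√3)`. -/
abbrev Q := ℤ × ℤ × ℤ × ℤ

/-- The point of the plane with coordinates `(a + b√3, c + d√3)`. -/
noncomputable def pt (t : Q) : Plane :=
  !₂[(t.1 : ℝ) + t.2.1 * √3, (t.2.2.1 : ℝ) + t.2.2.2 * √3]

/-- `(u, v)` with squared distance `u + v√3`. -/
def sd (s t : Q) : ℤ × ℤ :=
  ((s.1 - t.1) ^ 2 + 3 * (s.2.1 - t.2.1) ^ 2 + (s.2.2.1 - t.2.2.1) ^ 2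
      + 3 * (s.2.2.2 - t.2.2.2) ^ 2,
    2 * ((s.1 - t.1) * (s.2.1 - t.2.1) + (s.2.2.1 - t.2.2.1) * (s.2.2.2 - t.2.2.2)))

/-- The real number `√(u + v√3)`. -/
noncomputable def g (u : ℤ × ℤ) : ℝ := √((u.1 : ℝ) + u.2 * √3)

lemma sqrt3_sq : (√3 : ℝ) * √3 = 3 := Real.mul_self_sqrt (by norm_num)

lemma irr : Irrational (√3 : ℝ) := by
  have := Nat.Prime.irrational_sqrt (p := 3) (by norm_num)
  simpa using this

lemma int_eq {a b c d : ℤ} (h : (a : ℝ) + b * √3 = c + d * √3) : a = c ∧ b = d := by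
  have hbd : b = d := by
    by_contra hne
    have h1 : ((b - d : ℤ) : ℝ) ≠ 0 := by
      exact_mod_cast sub_ne_zero.mpr hne
    apply irr
    refine ⟨((c - a : ℤ) : ℚ) / ((b - d : ℤ) : ℚ), ?_⟩
    have h2 : ((b - d : ℤ) : ℝ) * √3 = ((c - a : ℤ) : ℝ) := by
      push_cast
      linarith
    rw [Rat.cast_div, Rat.cast_intCast, Rat.cast_intCast, ← h2]
    field_simp
  subst hbd
  refine ⟨?_, rfl⟩
  have : (a : ℝ) = c := by linarith
  exact_mod_cast this

lemma sq_dist (s t : Q) :
    ((sd s t).1 : ℝ) + (sd s t).2 * √3 = dist (pt s) (pt t) ^ 2 := by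
  rw [EuclideanSpace.dist_eq, Real.sq_sqrt (by positivity)]
  simp only [Fin.sum_univ_two, Real.dist_eq, sq_abs, pt, sd]
  simp only [Matrix.cons_val_zero, Matrix.cons_val_one]
  push_cast
  have h3 := sqrt3_sq
  linear_combination (-(s.2.1 - t.2.1 : ℝ) ^ 2 - (s.2.2.2 - t.2.2.2 : ℝ) ^ 2) * h3

lemma dist_pt (s t : Q) : dist (pt s) (pt t) = g (sd s t) := by
  rw [g, sq_dist, Real.sqrt_sq dist_nonneg]

lemma g_sd_inj {s t s' t' : Q} (h : g (sd s t) = g (sd s' t')) : sd s t = sd s' t' := by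
  have h1 : dist (pt s) (pt t) ^ 2 = dist (pt s') (pt t') ^ 2 := by
    rw [dist_pt, dist_pt, h]
  rw [← sq_dist, ← sq_dist] at h1
  exact Prod.ext (int_eq h1).1 (int_eq h1).2

lemma pt_inj : Function.Injective pt := by
  rintro ⟨a, b, c, d⟩ ⟨a', b', c', d'⟩ h
  have h0 : pt (a, b, c, d) 0 = pt (a', b', c', d') 0 := by rw [h]
  have h1 : pt (a, b, c, d) 1 = pt (a', b', c', d') 1 := by rw [h]
  simp only [pt, PiLp.toLp_apply, Matrix.cons_val_zero, Matrix.cons_val_one] at h0 h1
  obtain ⟨e1, e2⟩ := int_eq h0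
  obtain ⟨e3, e4⟩ := int_eq h1
  subst e1 e2 e3 e4
  rfl

/-- The cloud of the plane coded by a finite set of quadruples. -/
noncomputable def cloud (F : Finset Q) : Finset Plane := F.map ⟨pt, pt_inj⟩

/-- The integer version of the distribution. -/
def code (F : Finset Q) : Multiset (Multiset (ℤ × ℤ)) :=
  F.val.map (fun t => (F.erase t).val.map (sd t))

lemma PDD_cloud (F : Finset Q) :
    PDD (cloud F) = (code F).map (fun M => (M.map g).sort (· ≤ ·)) := by
  unfold PDD code cloud
  rw [Finset.map_val, Multiset.map_map, Multiset.map_map]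
  refine Multiset.map_congr rfl ?_
  intro t _
  simp only [Function.comp_apply, Function.Embedding.coeFn_mk]
  unfold row
  congr 1
  have : (Finset.map ⟨pt, pt_inj⟩ F).erase (pt t) = (F.erase t).map ⟨pt, pt_inj⟩ := by
    rw [Finset.map_erase]
    rfl
  rw [this, Finset.map_val, Multiset.map_map, Multiset.map_map]
  refine Multiset.map_congr rfl ?_
  intro s _
  simp only [Function.comp_apply, Function.Embedding.coeFn_mk]
  exact dist_pt t s

/-- First cloud (coded). -/
def FA : Finset Q :=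
  {(2, 0, 0, 0), (0, 1, 1, 0), (-2, 0, 0, 0), (0, -1, -1, 0), (4, 0, 0, 0), (0, 2, 2, 0),
    (-2, 0, 0, 2), (0, -2, 2, 0), (-2, 0, 0, -2), (0, 0, -4, 0)}

/-- Second cloud (coded). -/
def FB : Finset Q :=
  {(0, 1, 1, 0), (1, 0, 0, 1), (0, -1, -1, 0), (-1, 0, 0, -1), (4, 0, 0, 0), (0, 2, 2, 0),
    (-2, 0, 0, 2), (0, -2, 2, 0), (-2, 0, 0, -2), (0, 0, -4, 0)}

set_option maxRecDepth 100000 in
lemma code_eq : code FA = code FB := by decide +kernel

set_option maxRecDepth 100000 in
lemma no_embedding : ∀ p ∈ FB, ∀ q ∈ FB,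
    sd (2, 0, 0, 0) (0, 1, 1, 0) = sd p q → ∀ r ∈ FB,
    sd (2, 0, 0, 0) (4, 0, 0, 0) = sd p r → sd (0, 1, 1, 0) (4, 0, 0, 0) = sd q r → ∀ s ∈ FB,
    sd (2, 0, 0, 0) (0, 2, 2, 0) = sd p s → sd (0, 1, 1, 0) (0, 2, 2, 0) = sd q s →
    sd (4, 0, 0, 0) (0, 2, 2, 0) ≠ sd r s := by decide +kernel

/-- Pointwise distance distributions do not determine planar clouds up to isometry: there are
two 10-point clouds in the plane with the same distribution such that no isometry of the plane
maps one onto the other. -/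
theorem result : ∃ A B : Finset Plane, A.card = 10 ∧ B.card = 10 ∧ PDD A = PDD B ∧
    ¬ ∃ f : Plane → Plane, Isometry f ∧ f '' (A : Set Plane) = (B : Set Plane) := by
  refine ⟨cloud FA, cloud FB, ?_, ?_, ?_, ?_⟩
  · rw [cloud, Finset.card_map]; rfl
  · rw [cloud, Finset.card_map]; rfl
  · rw [PDD_cloud, PDD_cloud, code_eq]
  · rintro ⟨f, hf, hAB⟩
    have key : ∀ t ∈ FA, ∃ s ∈ FB, f (pt t) = pt s := by
      intro t ht
      have h1 : f (pt t) ∈ (cloud FB : Set Plane) := by
        rw [← hAB]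
        refine ⟨pt t, ?_, rfl⟩
        simp only [cloud, Finset.coe_map, Function.Embedding.coeFn_mk]
        exact ⟨t, by exact_mod_cast ht, rfl⟩
      simp only [cloud, Finset.coe_map, Function.Embedding.coeFn_mk] at h1
      obtain ⟨s, hs, hs'⟩ := h1
      exact ⟨s, by exact_mod_cast hs, hs'.symm⟩
    have hd : ∀ {s t s' t' : Q}, f (pt s) = pt s' → f (pt t) = pt t' → sd s t = sd s' t' := by
      intro s t s' t' h1 h2
      apply g_sd_inj
      rw [← dist_pt, ← dist_pt, ← h1, ← h2, hf.dist_eq]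
    obtain ⟨p, hp, hp'⟩ := key (2, 0, 0, 0) (by decide)
    obtain ⟨q, hq, hq'⟩ := key (0, 1, 1, 0) (by decide)
    obtain ⟨r, hr, hr'⟩ := key (4, 0, 0, 0) (by decide)
    obtain ⟨s, hs, hs'⟩ := key (0, 2, 2, 0) (by decide)
    exact no_embedding p hp q hq (hd hp' hq') r hr (hd hp' hr') (hd hq' hr') s hs
      (hd hp' hs') (hd hq' hs') (hd hr' hs')

end Pool.Agent.Results.MP_8766ea_co.PlanarPDD
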